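import Pool.Agent.P.MP_e4ac67_pr.D.SawMu

open Pool.Agent.P.MP_e4ac67_pr

theorem Pool.Agent.Results.MP_e4ac67_pr.ConnConst.result :
    ∀ k : ℕ, 7 ≤ k → ∀ {V V' : Type} (T : PlaneTri V) (Tk : PlaneTri V'),
      (∀ v, k ≤ T.deg v) → (∀ v, Tk.deg v = k) →
      ∀ (v : V) (v' : V'), connConst Tk.G v' ≤ connConst T.G v :=
  fun _ hk _ _ _ _ hT hT' => Gr.Saw.mu_le hk hT hT'
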