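import Pool.Agent.P.MP_e4ac67_pr.Final

open Pool.Agent.P.MP_e4ac67_pr

theorem Pool.Agent.Results.MP_e4ac67_pr.LargeDegree.result :
    ∀ k : ℕ, 10 ^ 128 ≤ k → ∀ {V V' : Type} (T : PlaneTri V) (Tk : PlaneTri V'),
      (∀ v, k ≤ T.deg v) → (∀ v, Tk.deg v = k) →
      (∀ (v : V) (v' : V'), connConst Tk.G v' ≤ connConst T.G v) ∧
        pcSite T.G ≤ pcSite Tk.G ∧ pcBond T.G ≤ pcBond Tk.G :=
  fun _ hk _ _ _ _ hT hT' =>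
    ⟨PlaneTri.mu_le hk hT hT', PlaneTri.site_le hk hT hT', PlaneTri.bond_le hk hT hT'⟩
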